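import Pool.Agent.H58.HN.TargetsT

/-! Board `hnet_modules`, row TA: the boundary of the boundary is zero. -/

set_option autoImplicit false

noncomputable section

namespace Pool.Agent.H1.HN

open Classical
open Pool.Agent.H58.HN

private lemma bd_e {P : Type} [PartialOrder P] (s : Ch P) :
    bd (e s) = ∑ x ∈ s.1, sg s x • e (er s x) := by
  simp [bd, e]

private lemma sg_lt {P : Type} [PartialOrder P] (s : Ch P) (x y : P) (hx : x ∈ s.1)
    (hxy : x < y) : sg s x * sg (er s x) y + sg s y * sg (er s y) x = 0 := by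
  have h1 : (s.1.erase y).filter (fun z => z < x) = s.1.filter (fun z => z < x) := by
    ext z
    simp only [Finset.mem_filter, Finset.mem_erase]
    constructor
    · rintro ⟨⟨_, h⟩, h'⟩; exact ⟨h, h'⟩
    · rintro ⟨h, h'⟩
      exact ⟨⟨fun hz => by subst hz; exact lt_asymm h' hxy, h⟩, h'⟩
  have h2 : (s.1.erase x).filter (fun z => z < y) = (s.1.filter (fun z => z < y)).erase x := by
    ext z
    simp only [Finset.mem_filter, Finset.mem_erase]
    tauto
  have h3 : ((s.1.filter (fun z => z < y)).erase x).card + 1 =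
      (s.1.filter (fun z => z < y)).card :=
    Finset.card_erase_add_one (Finset.mem_filter.2 ⟨hx, hxy⟩)
  unfold sg er
  simp only
  rw [h1, h2, ← h3, pow_succ]
  ring

private lemma sg_ne {P : Type} [PartialOrder P] (s : Ch P) (x y : P) (hx : x ∈ s.1)
    (hy : y ∈ s.1) (hxy : x ≠ y) : sg s x * sg (er s x) y + sg s y * sg (er s y) x = 0 := by
  rcases s.2 (Finset.mem_coe.2 hx) (Finset.mem_coe.2 hy) hxy with h | h
  · exact sg_lt s x y hx (lt_of_le_of_ne h hxy)
  · rw [add_comm]
    exact sg_lt s y x hy (lt_of_le_of_ne h (Ne.symm hxy))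

private lemma er_comm {P : Type} [PartialOrder P] (s : Ch P) (x y : P) :
    er (er s x) y = er (er s y) x := by
  apply Subtype.ext
  show (s.1.erase x).erase y = (s.1.erase y).erase x
  exact Finset.erase_right_comm

private lemma bd_bd_e {P : Type} [PartialOrder P] (s : Ch P) : bd (bd (e s)) = 0 := by
  rw [bd_e, map_sum]
  have h1 : ∀ x ∈ s.1, bd (sg s x • e (er s x)) =
      ∑ y ∈ s.1.erase x, (sg s x * sg (er s x) y) • e (er (er s x) y) := by
    intro x _
    rw [map_smul, bd_e, Finset.smul_sum]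
    refine Finset.sum_congr rfl fun y _ => ?_
    rw [smul_smul]
  rw [Finset.sum_congr rfl h1, Finset.sum_sigma']
  refine Finset.sum_involution (fun p _ => ⟨p.2, p.1⟩) ?_ ?_ ?_ ?_
  · rintro ⟨x, y⟩ h
    simp only [Finset.mem_sigma, Finset.mem_erase] at h
    simp only
    rw [er_comm s y x, ← add_smul, sg_ne s x y h.1 h.2.2 (Ne.symm h.2.1), zero_smul]
  · rintro ⟨x, y⟩ h _
    simp only [Finset.mem_sigma, Finset.mem_erase] at h
    intro hh
    simp only [Sigma.mk.injEq] at hh
    exact h.2.1 hh.1
  · rintro ⟨x, y⟩ h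
    simp only [Finset.mem_sigma, Finset.mem_erase] at h ⊢
    exact ⟨h.2.2, Ne.symm h.2.1, h.1⟩
  · rintro ⟨x, y⟩ _
    rfl

theorem pf_TA : Pool.Agent.H58.HN.T_TA := by
  intro P _ c
  induction c using Finsupp.induction_linear with
  | zero => simp
  | add f g hf hg => rw [map_add, map_add, hf, hg, add_zero]
  | single s a =>
    have h : Finsupp.single s a = a • e s := by
      unfold e
      rw [Finsupp.smul_single, smul_eq_mul, mul_one]
    rw [h, map_smul, map_smul, bd_bd_e, smul_zero]

end Pool.Agent.H1.HN
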