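import Pool.Agent.H58.HN.TargetsT

/-! Board `hnet_modules`, row TB: cones are acyclic. -/

set_option autoImplicit false

noncomputable section

namespace Pool.Agent.H1.HN

open Classical
open Pool.Agent.H58.HN

variable {P : Type} [PartialOrder P]

private lemma tb_bd_e (s : Ch P) : bd (e s) = ∑ x ∈ s.1, sg s x • e (er s x) := by
  simp [bd, e]

private def ins (r : P) (t : Ch P) (h : ∀ y ∈ t.1, y ≤ r) : Ch P :=
  ⟨insert r t.1, by
    rw [Finset.coe_insert]
    exact t.2.insert fun b hb _ => Or.inr (h b (Finset.mem_coe.1 hb))⟩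

private def kap0 (r : P) (t : Ch P) : CG P :=
  if h : r ∉ t.1 ∧ ∀ y ∈ t.1, y ≤ r then ((-1 : ℚ) ^ t.1.card) • e (ins r t h.2) else 0

private def kap (r : P) : CG P →ₗ[ℚ] CG P := Finsupp.linearCombination ℚ (kap0 r)

private lemma kap_e (r : P) (t : Ch P) : kap r (e t) = kap0 r t := by
  simp [kap, e]

private lemma sg_top (r : P) (t : Ch P) (h : ∀ y ∈ t.1, y ≤ r) (hr : r ∉ t.1) :
    sg (ins r t h) r = (-1 : ℚ) ^ t.1.card := by
  unfold sg ins
  simp only
  congr 2
  ext z
  simp only [Finset.mem_filter, Finset.mem_insert]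
  constructor
  · rintro ⟨h1 | h1, h2⟩
    · exact absurd h1 (ne_of_lt h2)
    · exact h1
  · intro h1
    exact ⟨Or.inr h1, lt_of_le_of_ne (h z h1) fun hz => hr (hz ▸ h1)⟩

private lemma sg_ins (r : P) (t : Ch P) (h : ∀ y ∈ t.1, y ≤ r) (x : P) (hx : x ∈ t.1) :
    sg (ins r t h) x = sg t x := by
  unfold sg ins
  simp only
  congr 2
  ext z
  simp only [Finset.mem_filter, Finset.mem_insert]
  constructor
  · rintro ⟨h1 | h1, h2⟩
    · exact absurd (h1 ▸ h2) (not_lt_of_ge (h x hx))
    · exact ⟨h1, h2⟩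
  · rintro ⟨h1, h2⟩
    exact ⟨Or.inr h1, h2⟩

private lemma er_ins_self (r : P) (t : Ch P) (h : ∀ y ∈ t.1, y ≤ r) (hr : r ∉ t.1) :
    er (ins r t h) r = t := by
  apply Subtype.ext
  show (insert r t.1).erase r = t.1
  exact Finset.erase_insert hr

private lemma er_le (r : P) (t : Ch P) (h : ∀ y ∈ t.1, y ≤ r) (x : P) :
    ∀ y ∈ (er t x).1, y ≤ r := fun y hy => h y (Finset.mem_of_mem_erase hy)

private lemma er_ins (r : P) (t : Ch P) (h : ∀ y ∈ t.1, y ≤ r) (x : P) (hxr : x ≠ r) :
    er (ins r t h) x = ins r (er t x) (er_le r t h x) := by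
  apply Subtype.ext
  show (insert r t.1).erase x = insert r (t.1.erase x)
  exact Finset.erase_insert_of_ne (Ne.symm hxr)

private lemma kap_hom (r : P) (t : Ch P) (h : ∀ y ∈ t.1, y ≤ r) :
    bd (kap r (e t)) + kap r (bd (e t)) = e t := by
  rw [tb_bd_e, map_sum, kap_e]
  by_cases hr : r ∈ t.1
  · have h0 : kap0 r t = 0 := by
      unfold kap0
      rw [dif_neg]
      rintro ⟨h1, _⟩; exact h1 hr
    rw [h0, map_zero, zero_add]
    rw [Finset.sum_eq_single_of_mem r hr]
    · rw [map_smul, kap_e]
      have h1 : kap0 r (er t r) = ((-1 : ℚ) ^ (er t r).1.card) • e t := by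
        unfold kap0
        rw [dif_pos ⟨Finset.notMem_erase r t.1, er_le r t h r⟩]
        congr 2
        apply Subtype.ext
        show insert r (t.1.erase r) = t.1
        exact Finset.insert_erase hr
      rw [h1, smul_smul]
      have h2 : sg t r = (-1 : ℚ) ^ (er t r).1.card := by
        unfold sg er
        simp only
        congr 2
        ext z
        simp only [Finset.mem_filter, Finset.mem_erase]
        constructor
        · rintro ⟨h3, h4⟩; exact ⟨ne_of_lt h4, h3⟩
        · rintro ⟨h3, h4⟩; exact ⟨h4, lt_of_le_of_ne (h z h4) h3⟩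
      rw [h2, ← mul_pow]
      norm_num
    · intro x hx hxr
      rw [map_smul, kap_e]
      have h1 : kap0 r (er t x) = 0 := by
        unfold kap0
        rw [dif_neg]
        rintro ⟨h1, _⟩
        exact h1 (Finset.mem_erase.2 ⟨Ne.symm hxr, hr⟩)
      rw [h1, smul_zero]
  · have h0 : kap0 r t = ((-1 : ℚ) ^ t.1.card) • e (ins r t h) := by
      unfold kap0
      rw [dif_pos ⟨hr, h⟩]
    rw [h0, map_smul, tb_bd_e]
    have h1 : (ins r t h).1 = insert r t.1 := rfl
    rw [h1, Finset.sum_insert hr, er_ins_self r t h hr, sg_top r t h hr, smul_add, smul_smul,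
      ← mul_pow]
    have h2 : ((-1 : ℚ) * -1) ^ t.1.card = 1 := by norm_num
    rw [h2, one_smul, add_assoc, Finset.smul_sum, ← Finset.sum_add_distrib]
    rw [Finset.sum_eq_zero, add_zero]
    intro x hx
    have hxr : x ≠ r := fun hh => hr (hh ▸ hx)
    rw [sg_ins r t h x hx, er_ins r t h x hxr, map_smul, kap_e]
    have h3 : kap0 r (er t x) = ((-1 : ℚ) ^ (er t x).1.card) •
        e (ins r (er t x) (er_le r t h x)) := by
      unfold kap0
      rw [dif_pos ⟨fun hh => hr (Finset.mem_of_mem_erase hh), er_le r t h x⟩]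
    have h4 : (er t x).1.card + 1 = t.1.card := Finset.card_erase_add_one hx
    rw [h3, smul_smul, smul_smul, ← add_smul, ← h4, pow_succ]
    have h5 : (-1 : ℚ) ^ (er t x).1.card * -1 * sg t x + sg t x * (-1) ^ (er t x).1.card = 0 := by
      ring
    rw [h5, zero_smul]

private lemma kap_mem (r : P) (m : ℕ) (t : Ch P) (ht : t.1.card = m) :
    kap r (e t) ∈ Sp (fun t : Ch P => t.1.card = m + 1 ∧ ∀ y ∈ t.1, y ≤ r) := by
  rw [kap_e]
  unfold kap0
  split_ifs with h
  · apply Submodule.smul_mem
    unfold Sp e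
    rw [Finsupp.mem_supported]
    intro s hs
    have hs' : s = ins r t h.2 := by
      have := Finsupp.support_single_subset (Finset.mem_coe.1 hs)
      simpa using this
    subst hs'
    refine ⟨?_, ?_⟩
    · show (insert r t.1).card = m + 1
      rw [Finset.card_insert_of_notMem h.1, ht]
    · intro y hy
      rcases Finset.mem_insert.1 hy with h1 | h1
      · exact h1.le
      · exact h.2 y h1
  · exact Submodule.zero_mem _

theorem pf_TB : Pool.Agent.H58.HN.T_TB := by
  intro P _ r m c hc hbd
  refine ⟨kap r c, ?_, ?_⟩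
  · have h1 : c = ∑ t ∈ c.support, c t • e t := by
      conv_lhs => rw [← Finsupp.sum_single c]
      unfold Finsupp.sum
      refine Finset.sum_congr rfl fun t _ => ?_
      unfold e
      rw [Finsupp.smul_single, smul_eq_mul, mul_one]
    rw [h1, map_sum]
    refine Submodule.sum_mem _ fun t ht => ?_
    rw [map_smul]
    apply Submodule.smul_mem
    exact kap_mem r m t ((Finsupp.mem_supported ℚ c).1 hc (Finset.mem_coe.2 ht)).1
  · have h2 : bd (kap r c) + kap r (bd c) = c := by
      have h1 : c = ∑ t ∈ c.support, c t • e t := by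
        conv_lhs => rw [← Finsupp.sum_single c]
        unfold Finsupp.sum
        refine Finset.sum_congr rfl fun t _ => ?_
        unfold e
        rw [Finsupp.smul_single, smul_eq_mul, mul_one]
      have h3 : bd (kap r c) + kap r (bd c) =
          ∑ t ∈ c.support, c t • (bd (kap r (e t)) + kap r (bd (e t))) := by
        conv_lhs => rw [h1]
        rw [map_sum, map_sum, map_sum, map_sum, ← Finset.sum_add_distrib]
        refine Finset.sum_congr rfl fun t _ => ?_
        rw [map_smul, map_smul, map_smul, map_smul, smul_add]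
      rw [h3]
      conv_rhs => rw [h1]
      refine Finset.sum_congr rfl fun t ht => ?_
      rw [kap_hom r t ((Finsupp.mem_supported ℚ c).1 hc (Finset.mem_coe.2 ht)).2]
    rw [hbd, map_zero, add_zero] at h2
    exact h2

end Pool.Agent.H1.HN
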