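import Pool.Agent.H58.HN.TargetsT

/-! Board `hnet_modules`, row TH: the homology of a connected poset in the degrees 0 and 1. -/

set_option autoImplicit false

noncomputable section

namespace Pool.Agent.H1.HN

open Classical
open Pool.Agent.H58.HN

variable {P : Type} [PartialOrder P]

private lemma th_bd_e (s : Ch P) : bd (e s) = ∑ x ∈ s.1, sg s x • e (er s x) := by
  simp [bd, e]

private lemma th_rep (c : CG P) : c = ∑ t ∈ c.support, c t • e t := by
  conv_lhs => rw [← Finsupp.sum_single c]
  unfold Finsupp.sum
  refine Finset.sum_congr rfl fun t _ => ?_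
  unfold e
  rw [Finsupp.smul_single, smul_eq_mul, mul_one]

private lemma e_mem (s : Ch P) (n : ℕ) (h : s.1.card = n) : e s ∈ G P n := by
  unfold G Sp e
  rw [Finsupp.mem_supported]
  intro t ht
  have ht' : t = s := by
    have := Finsupp.support_single_subset (Finset.mem_coe.1 ht)
    simpa using this
  rw [ht']
  exact h

private lemma bd_pt (x : P) : bd (e (pt x)) = e nil := by
  rw [th_bd_e]
  have h1 : (pt x : Ch P).1 = {x} := rfl
  rw [h1, Finset.sum_singleton]
  have h2 : sg (pt x) x = 1 := by
    have h4 : (({x} : Finset P).filter (fun y => y < x)) = ∅ := by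
      ext z
      simp only [Finset.mem_filter, Finset.mem_singleton, Finset.notMem_empty, iff_false, not_and]
      rintro rfl
      exact lt_irrefl _
    show (-1 : ℚ) ^ (({x} : Finset P).filter (fun y => y < x)).card = 1
    rw [h4]
    simp
  have h3 : er (pt x) x = nil := by
    apply Subtype.ext
    show ({x} : Finset P).erase x = ∅
    simp
  rw [h2, h3, one_smul]

private def pr (x y : P) (h : x < y) : Ch P :=
  ⟨{x, y}, by
    intro a ha b hb _
    simp only [Finset.coe_insert, Finset.coe_singleton, Set.mem_insert_iff,
      Set.mem_singleton_iff] at ha hb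
    rcases ha with rfl | rfl <;> rcases hb with rfl | rfl
    · exact Or.inl le_rfl
    · exact Or.inl h.le
    · exact Or.inr h.le
    · exact Or.inl le_rfl⟩

private lemma edge (x y : P) (h : x < y) : e (pt y) - e (pt x) ∈ (G P 2).map bd := by
  refine ⟨e (pr x y h), ?_, ?_⟩
  · exact e_mem _ 2 (Finset.card_pair (ne_of_lt h))
  · rw [th_bd_e]
    have h0 : (pr x y h).1 = {x, y} := rfl
    rw [h0, Finset.sum_pair (ne_of_lt h)]
    have h1 : er (pr x y h) x = pt y := by
      apply Subtype.ext
      show ({x, y} : Finset P).erase x = {y}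
      exact Finset.erase_insert (by simpa using ne_of_lt h)
    have h2 : er (pr x y h) y = pt x := by
      apply Subtype.ext
      show ({x, y} : Finset P).erase y = {x}
      rw [Finset.pair_comm]
      exact Finset.erase_insert (by simpa using (ne_of_lt h).symm)
    have h3 : sg (pr x y h) x = 1 := by
      have : (({x, y} : Finset P).filter (fun z => z < x)) = ∅ := by
        ext z
        simp only [Finset.mem_filter, Finset.mem_insert, Finset.mem_singleton, Finset.notMem_empty,
          iff_false, not_and]
        rintro (rfl | rfl)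
        · exact lt_irrefl _
        · exact not_lt_of_gt h
      show (-1 : ℚ) ^ (({x, y} : Finset P).filter (fun z => z < x)).card = 1
      rw [this]
      simp
    have h4 : sg (pr x y h) y = -1 := by
      have : (({x, y} : Finset P).filter (fun z => z < y)) = {x} := by
        ext z
        simp only [Finset.mem_filter, Finset.mem_insert, Finset.mem_singleton]
        constructor
        · rintro ⟨rfl | rfl, h5⟩
          · rfl
          · exact absurd h5 (lt_irrefl _)
        · rintro rfl
          exact ⟨Or.inl rfl, h⟩
      show (-1 : ℚ) ^ (({x, y} : Finset P).filter (fun z => z < y)).card = -1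
      rw [this]
      simp
    rw [h1, h2, h3, h4, one_smul, neg_one_smul, sub_eq_add_neg]

private lemma path (x y : P) (h : Relation.ReflTransGen (fun a b => a ≤ b ∨ b ≤ a) x y) :
    e (pt y) - e (pt x) ∈ (G P 2).map bd := by
  induction h with
  | refl => rw [sub_self]; exact Submodule.zero_mem _
  | @tail b c _ hbc ih =>
    have h1 : e (pt c) - e (pt b) ∈ (G P 2).map bd := by
      by_cases hne : b = c
      · rw [hne, sub_self]; exact Submodule.zero_mem _
      · rcases hbc with h2 | h2
        · exact edge b c (lt_of_le_of_ne h2 hne)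
        · have h3 := edge c b (lt_of_le_of_ne h2 (Ne.symm hne))
          have h4 := Submodule.neg_mem _ h3
          rwa [neg_sub] at h4
    have h5 := Submodule.add_mem _ h1 ih
    rwa [sub_add_sub_cancel] at h5

theorem pf_TH : Pool.Agent.H58.HN.T_TH := by
  intro P _ _ hconn m hm z hz hbd
  obtain ⟨x0⟩ := (inferInstance : Nonempty P)
  have hz' := (Finsupp.mem_supported ℚ z).1 hz
  interval_cases m
  · -- degree zero
    refine ⟨z nil • e (pt x0), Submodule.smul_mem _ _ (e_mem _ 1 (Finset.card_singleton x0)), ?_⟩
    rw [map_smul, bd_pt]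
    have h1 : ∀ t ∈ z.support, t = nil := by
      intro t ht
      have h2 : t.1.card = 0 := hz' (Finset.mem_coe.2 ht)
      apply Subtype.ext
      exact Finset.card_eq_zero.1 h2
    ext t
    unfold e
    rw [Finsupp.smul_single, smul_eq_mul, mul_one, Finsupp.single_apply]
    split_ifs with h3
    · rw [h3]
    · by_contra h4
      exact h3 (h1 t (Finsupp.mem_support_iff.2 (Ne.symm h4))).symm
  · -- degree one
    have h1 : ∀ t ∈ z.support, ∃ x, t = pt x := by
      intro t ht
      have h2 : t.1.card = 1 := hz' (Finset.mem_coe.2 ht)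
      obtain ⟨x, hx⟩ := Finset.card_eq_one.1 h2
      exact ⟨x, Subtype.ext hx⟩
    have h2 : bd z = (∑ t ∈ z.support, z t) • e nil := by
      conv_lhs => rw [th_rep z]
      rw [map_sum, Finset.sum_smul]
      refine Finset.sum_congr rfl fun t ht => ?_
      obtain ⟨x, rfl⟩ := h1 t ht
      rw [map_smul, bd_pt]
    have h3 : ∑ t ∈ z.support, z t = 0 := by
      rw [hbd] at h2
      have h4 := congrArg (fun c : CG P => c nil) h2
      simp only [Finsupp.coe_zero, Pi.zero_apply, Finsupp.smul_apply, smul_eq_mul] at h4
      unfold e at h4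
      rw [Finsupp.single_eq_same, mul_one] at h4
      exact h4.symm
    have h4 : z = ∑ t ∈ z.support, z t • (e t - e (pt x0)) := by
      conv_lhs => rw [th_rep z]
      have h5 : ∑ t ∈ z.support, z t • (e t - e (pt x0)) =
          ∑ t ∈ z.support, z t • e t - (∑ t ∈ z.support, z t) • e (pt x0) := by
        rw [Finset.sum_smul, ← Finset.sum_sub_distrib]
        exact Finset.sum_congr rfl fun t _ => smul_sub _ _ _
      rw [h5, h3, zero_smul, sub_zero]
    have h6 : z ∈ (G P 2).map bd := by
      rw [h4]
      refine Submodule.sum_mem _ fun t ht => Submodule.smul_mem _ _ ?_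
      obtain ⟨x, rfl⟩ := h1 t ht
      exact path x0 x (hconn x0 x)
    obtain ⟨y, hy, hy2⟩ := h6
    exact ⟨y, hy, hy2⟩

end Pool.Agent.H1.HN
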